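import Mathlib

/-!
# The finite 2-sunflower property implies the finite sunflower property

For a Fraïssé class with strong amalgamation. The 2-sunflower property, applied to the 2-sets
`{class of v, v}`, makes a given equivalence relation full or trivial on a copy. Apply this to the
relations of having the same `i`-th point in a structure on `k`-sets; the remaining intersections define a graph
of bounded degree, and a colouring of it together with indivisibility finishes the proof.
-/

set_option autoImplicit false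

namespace Pool.Agent.Results.MP_ae912c_co.TwoSunflower

open FirstOrder FirstOrder.Language CategoryTheory

universe u v w

variable {L : FirstOrder.Language.{u, v}}

/-- Strong amalgamation. -/
def StrongAmalgamation (K : Set (Bundled.{w} L.Structure)) : Prop :=
  ∀ (A B₀ B₁ : Bundled.{w} L.Structure) (f₀ : A ↪[L] B₀) (f₁ : A ↪[L] B₁),
    A ∈ K → B₀ ∈ K → B₁ ∈ K → ∃ (C : Bundled.{w} L.Structure) (g₀ : B₀ ↪[L] C) (g₁ : B₁ ↪[L] C),
      C ∈ K ∧ g₀.comp f₀ = g₁.comp f₁ ∧ Set.range g₀ ∩ Set.range g₁ = Set.range (g₀.comp f₀)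

/-- A substructure `S` of a structure whose elements are sets is a structured sunflower. -/
def IsSunflower {X : Type w} {D : Set (Set X)} [L.Structure D] (S : L.Substructure D) : Prop :=
  ∃ c : Set X, ∀ v ∈ S, ∀ v' ∈ S, v ≠ v' → (v : Set X) ∩ (v' : Set X) = c

/-- The finite `k`-sunflower property. -/
def FiniteSunflower (K : Set (Bundled.{w} L.Structure)) (k : ℕ) : Prop :=
  ∀ B ∈ K, ∃ C ∈ K, ∀ (X : Type w) (D : Set (Set X)) [L.Structure D],
    (∀ v ∈ D, v.encard = k) → Nonempty (C ≃[L] D) →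
      ∃ S : L.Substructure D, Nonempty (B ≃[L] S) ∧ IsSunflower S

/-- The same with embeddings. -/
def EmbSunflower (K : Set (Bundled.{w} L.Structure)) (k : ℕ) : Prop :=
  ∀ B ∈ K, ∃ C ∈ K, ∀ (X : Type w) (f : C → Set X), Function.Injective f →
    (∀ v, (f v).encard = k) →
      ∃ (e : B ↪[L] C) (c : Set X), ∀ x y, x ≠ y → f (e x) ∩ f (e y) = c

theorem emb_of_finite {K : Set (Bundled.{w} L.Structure)} {k : ℕ} (h : FiniteSunflower K k) :
    EmbSunflower K k := by
  intro B hB
  obtain ⟨C, hC, h1⟩ := h B hB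
  refine ⟨C, hC, fun X f hf hk => ?_⟩
  let φ : C ≃ Set.range f := Equiv.ofInjective f hf
  let _ : L.Structure (Set.range f) := φ.inducedStructure
  let Φ : C ≃[L] Set.range f := φ.inducedStructureEquiv
  obtain ⟨S, ⟨ψ⟩, c, hc⟩ := h1 X (Set.range f) (by rintro _ ⟨v, rfl⟩; exact hk v) ⟨Φ⟩
  refine ⟨Φ.symm.toEmbedding.comp (S.subtype.comp ψ.toEmbedding), c, fun x y hxy => ?_⟩
  have h2 : ∀ z : B, f (Φ.symm (ψ z : Set.range f)) = ((ψ z : Set.range f) : Set X) := by
    intro z
    have h3 : Φ (Φ.symm (ψ z : Set.range f)) = (ψ z : Set.range f) := Φ.apply_symm_apply _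
    have h4 : ∀ v : C, ((Φ v : Set.range f) : Set X) = f v := fun v => rfl
    rw [← h4, h3]
  change f (Φ.symm (ψ x : Set.range f)) ∩ f (Φ.symm (ψ y : Set.range f)) = c
  rw [h2, h2]
  refine hc _ (ψ x).2 _ (ψ y).2 fun h3 => hxy ?_
  exact ψ.injective (Subtype.ext h3)

theorem finite_of_emb {K : Set (Bundled.{w} L.Structure)} {k : ℕ} (h : EmbSunflower K k) :
    FiniteSunflower K k := by
  intro B hB
  obtain ⟨C, hC, h1⟩ := h B hB
  refine ⟨C, hC, fun X D _ hk ⟨Φ⟩ => ?_⟩
  obtain ⟨e, c, hc⟩ := h1 X (fun v => (Φ v : Set X)) (fun v v' hv => Φ.injective (Subtype.ext hv))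
    (fun v => hk _ (Φ v).2)
  let e' : B ↪[L] D := Φ.toEmbedding.comp e
  refine ⟨e'.toHom.range, ⟨e'.equivRange⟩, c, ?_⟩
  rintro v hv v' hv' hne
  obtain ⟨x, rfl⟩ := (Hom.mem_range).1 hv
  obtain ⟨y, rfl⟩ := (Hom.mem_range).1 hv'
  exact hc x y (fun hxy => hne (by rw [hxy]))

section

variable {K : Set (Bundled.{w} L.Structure)}

/-- Canonisation of one equivalence relation. -/
theorem canon (h2 : EmbSunflower K 2) {B : Bundled.{w} L.Structure} (hB : B ∈ K) :
    ∃ C ∈ K, ∀ E : Setoid C, ∃ e : B ↪[L] C,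
      (∀ x y, E (e x) (e y)) ∨ (∀ x y, E (e x) (e y) → x = y) := by
  obtain ⟨C, hC, h⟩ := h2 B hB
  refine ⟨C, hC, fun E => ?_⟩
  let f : C → Set (Quotient E ⊕ C) := fun v => {Sum.inl (Quotient.mk E v), Sum.inr v}
  have hf : Function.Injective f := by
    intro v v' hv
    have h1 : (Sum.inr v : Quotient E ⊕ C) ∈ f v' := by
      rw [← hv]
      exact Or.inr rfl
    rcases h1 with h1 | h1
    · exact absurd h1 (by simp)
    · exact Sum.inr_injective h1
  have hk : ∀ v, (f v).encard = (2 : ℕ) := fun v => by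
    have : f v = {Sum.inl (Quotient.mk E v), Sum.inr v} := rfl
    rw [this, Set.encard_pair (by simp)]
    rfl
  obtain ⟨e, c, hc⟩ := h (Quotient E ⊕ C) f hf hk
  refine ⟨e, ?_⟩
  by_cases hE : ∃ x y, x ≠ y ∧ E (e x) (e y)
  · left
    obtain ⟨x, y, hxy, hE⟩ := hE
    have h1 : (Sum.inl (Quotient.mk E (e x)) : Quotient E ⊕ C) ∈ c := by
      rw [← hc x y hxy]
      exact ⟨Or.inl rfl, Or.inl (congrArg Sum.inl (Quotient.sound hE))⟩
    intro x' y'
    by_cases hxy' : x' = y'
    · rw [hxy']
    · rw [← hc x' y' hxy'] at h1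
      obtain ⟨h3, h4⟩ := h1
      have h5 : Quotient.mk E (e x) = Quotient.mk E (e x') := by
        rcases h3 with h3 | h3
        · exact Sum.inl_injective h3
        · exact absurd h3 (by simp)
      have h6 : Quotient.mk E (e x) = Quotient.mk E (e y') := by
        rcases h4 with h4 | h4
        · exact Sum.inl_injective h4
        · exact absurd h4 (by simp)
      exact Quotient.exact (h5.symm.trans h6)
  · right
    intro x y h1
    by_contra h3
    exact hE ⟨x, y, h3, h1⟩

/-- Canonisation of finitely many equivalence relations. -/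
theorem canon_many (h2 : EmbSunflower K 2) (n : ℕ) {B : Bundled.{w} L.Structure} (hB : B ∈ K) :
    ∃ C ∈ K, ∀ E : Fin n → Setoid C, ∃ e : B ↪[L] C,
      ∀ i, (∀ x y, E i (e x) (e y)) ∨ (∀ x y, E i (e x) (e y) → x = y) := by
  induction n with
  | zero => exact ⟨B, hB, fun E => ⟨Embedding.refl L B, fun i => i.elim0⟩⟩
  | succ n ih =>
    obtain ⟨C₁, hC₁, h1⟩ := ih
    obtain ⟨C, hC, h3⟩ := canon h2 hC₁
    refine ⟨C, hC, fun E => ?_⟩
    obtain ⟨e₁, he₁⟩ := h3 (E (Fin.last n))
    obtain ⟨e₂, he₂⟩ := h1 fun i => (E i.castSucc).comap e₁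
    refine ⟨e₁.comp e₂, fun i => ?_⟩
    induction i using Fin.lastCases with
    | last =>
      rcases he₁ with h4 | h4
      · exact Or.inl fun x y => h4 (e₂ x) (e₂ y)
      · exact Or.inr fun x y h5 => e₂.injective (h4 (e₂ x) (e₂ y) h5)
    | cast i => exact he₂ i

variable [L.IsRelational]

/-- Larger structures in the class. -/
theorem exists_large (hK : IsFraisse K) (hs : StrongAmalgamation K) (m : ℕ)
    {B : Bundled.{w} L.Structure} (hB : B ∈ K) (hne : Nonempty B) :
    ∃ C ∈ K, Nonempty (B ↪[L] C) ∧ m < Nat.card C := by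
  have hfin : ∀ M ∈ K, Finite M := fun M hM => (hK.FG M hM).finite
  induction m with
  | zero =>
    have := hfin B hB
    exact ⟨B, hB, ⟨Embedding.refl L B⟩, Nat.card_pos⟩
  | succ m ih =>
    obtain ⟨C, hC, ⟨e⟩, hm⟩ := ih
    -- amalgamate over the empty structure
    let A : Bundled.{w} L.Structure := Bundled.of (⊥ : L.Substructure B)
    have hA : A ∈ K := by
      refine hK.hereditary B hB ⟨?_, ⟨Substructure.subtype _⟩⟩
      exact (Substructure.fg_iff_structure_fg _).1 Substructure.fg_bot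
    have hempty : IsEmpty A := by
      have h1 : ((⊥ : L.Substructure B) : Set B) = ∅ := by
        rw [← Substructure.closure_empty, Substructure.closure_eq_of_isRelational]
      refine ⟨fun a => ?_⟩
      obtain ⟨b, hb⟩ : (⊥ : L.Substructure B) := a
      have h2 : b ∈ ((⊥ : L.Substructure B) : Set B) := hb
      rw [h1] at h2
      exact h2
    let fB : A ↪[L] B := Substructure.subtype _
    obtain ⟨Q, g₀, g₁, hQ, -, h3⟩ := hs A B C fB (e.comp fB) hA hB hC
    have := hfin Q hQ
    have := hfin C hC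
    have := hfin B hB
    refine ⟨Q, hQ, ⟨g₀⟩, ?_⟩
    have h4 : Set.range g₀ ∩ Set.range g₁ = ∅ := by
      rw [h3, Set.range_eq_empty]
    have h5 : (Set.range g₀ ∪ Set.range g₁).ncard = Nat.card B + Nat.card C := by
      rw [Set.ncard_union_eq (Set.disjoint_iff_inter_eq_empty.2 h4) (Set.toFinite _)
        (Set.toFinite _), Set.ncard_range_of_injective g₀.injective,
        Set.ncard_range_of_injective g₁.injective]
    have h6 : (Set.range g₀ ∪ Set.range g₁).ncard ≤ Nat.card Q := by
      rw [← Set.ncard_univ]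
      exact Set.ncard_le_ncard (Set.subset_univ _) (Set.toFinite _)
    have h7 : 0 < Nat.card B := Nat.card_pos
    omega

/-- Indivisibility. -/
theorem indivisible (hK : IsFraisse K) (hs : StrongAmalgamation K) (h2 : EmbSunflower K 2) (m : ℕ)
    {B : Bundled.{w} L.Structure} (hB : B ∈ K) :
    ∃ C ∈ K, ∀ χ : C → Fin m, ∃ e : B ↪[L] C, ∀ x y, χ (e x) = χ (e y) := by
  rcases isEmpty_or_nonempty B with hne | hne
  · exact ⟨B, hB, fun χ => ⟨Embedding.refl L B, fun x => isEmptyElim x⟩⟩
  obtain ⟨B', hB', ⟨e₀⟩, hm⟩ := exists_large hK hs m hB hne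
  obtain ⟨C, hC, h⟩ := canon h2 hB'
  refine ⟨C, hC, fun χ => ?_⟩
  obtain ⟨e, he | he⟩ := h (Setoid.ker χ)
  · exact ⟨e.comp e₀, fun x y => he (e₀ x) (e₀ y)⟩
  · exfalso
    have h3 : Function.Injective (fun x => χ (e x)) := fun x y hxy => he x y hxy
    have h4 := Nat.card_le_card_of_injective _ h3
    rw [Nat.card_fin] at h4
    omega

end

/-- Greedy colouring. -/
theorem greedy {V : Type*} [Finite V] (r : V → V → Prop) (hr : ∀ v w, r v w → r w v) (d : ℕ)
    (hd : ∀ v, {w | r v w}.ncard ≤ d) :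
    ∃ χ : V → Fin (d + 1), ∀ v w, v ≠ w → r v w → χ v ≠ χ w := by
  classical
  have := Fintype.ofFinite V
  have key : ∀ s : Finset V, ∃ χ : V → Fin (d + 1),
      ∀ v ∈ s, ∀ w ∈ s, v ≠ w → r v w → χ v ≠ χ w := by
    intro s
    induction s using Finset.induction_on with
    | empty => exact ⟨fun _ => 0, by simp⟩
    | insert a s ha ih =>
      obtain ⟨χ, hχ⟩ := ih
      obtain ⟨c, hc⟩ : ∃ c, c ∉ χ '' {w | r a w} := by
        by_contra hcon
        push Not at hcon
        have h1 : (Set.univ : Set (Fin (d + 1))).ncard ≤ {w | r a w}.ncard := by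
          refine (Set.ncard_le_ncard (fun c _ => hcon c) (Set.toFinite _)).trans ?_
          exact Set.ncard_image_le (Set.toFinite _)
        rw [Set.ncard_univ, Nat.card_fin] at h1
        have := hd a
        omega
      refine ⟨Function.update χ a c, ?_⟩
      intro v hv w hw hvw hrvw
      rcases Finset.mem_insert.1 hv with rfl | hv'
      · rcases Finset.mem_insert.1 hw with rfl | hw'
        · exact absurd rfl hvw
        · rw [Function.update_self, Function.update_of_ne (Ne.symm hvw)]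
          intro h
          exact hc ⟨w, hrvw, h.symm⟩
      · rcases Finset.mem_insert.1 hw with rfl | hw'
        · rw [Function.update_self, Function.update_of_ne hvw]
          intro h
          exact hc ⟨v, hr _ _ hrvw, h⟩
        · rw [Function.update_of_ne (by rintro rfl; exact ha hv'),
            Function.update_of_ne (by rintro rfl; exact ha hw')]
          exact hχ v hv' w hw' hvw hrvw
  obtain ⟨χ, hχ⟩ := key Finset.univ
  exact ⟨χ, fun v w => hχ v (Finset.mem_univ _) w (Finset.mem_univ _)⟩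

section

variable {K : Set (Bundled.{w} L.Structure)} [L.IsRelational]

theorem emb_main (hK : IsFraisse K) (hs : StrongAmalgamation K) (h2 : EmbSunflower K 2) (k : ℕ) :
    EmbSunflower K k := by
  intro B hB
  have hfin : ∀ M ∈ K, Finite M := fun M hM => (hK.FG M hM).finite
  obtain ⟨B', hB', hind⟩ := indivisible hK hs h2 (k * k + 1) hB
  obtain ⟨C, hC, hcan⟩ := canon_many h2 k hB'
  refine ⟨C, hC, fun X f hf hk => ?_⟩
  -- enumerate the `k`-sets
  have hp : ∀ v : C, ∃ p : Fin k → X, Function.Injective p ∧ Set.range p = f v := by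
    intro v
    have h1 : (f v).Finite := Set.finite_of_encard_eq_coe (hk v)
    have h3 : Nat.card (f v) = k := by
      rw [Nat.card_coe_set_eq, Set.ncard, hk v]
      rfl
    have := h1.to_subtype
    let ψ := Finite.equivFinOfCardEq h3
    refine ⟨fun i => (ψ.symm i : X), fun i j hij => ψ.symm.injective (Subtype.ext hij), ?_⟩
    ext q
    constructor
    · rintro ⟨i, rfl⟩
      exact (ψ.symm i).2
    · intro hq
      exact ⟨ψ ⟨q, hq⟩, by simp⟩
  choose p hpinj hprange using hp
  obtain ⟨e, he⟩ := hcan fun i => Setoid.ker fun v => p v i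
  -- `i` is full or trivial
  have he' : ∀ i, (∀ x y : B', p (e x) i = p (e y) i) ∨
      (∀ x y : B', p (e x) i = p (e y) i → x = y) := he
  -- the conflict graph
  let r : B' → B' → Prop := fun x y => ∃ i j : Fin k, i ≠ j ∧ p (e x) i = p (e y) j ∧
    (∀ x y : B', p (e x) i = p (e y) i → x = y) ∧ (∀ x y : B', p (e x) j = p (e y) j → x = y)
  have hfinB' := hfin B' hB'
  obtain ⟨χ, hχ⟩ := greedy r
    (by
      rintro x y ⟨i, j, hij, h1, h3, h4⟩
      exact ⟨j, i, hij.symm, h1.symm, h4, h3⟩)
    (k * k)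
    (by
      intro x
      have h1 : ∀ y : {y | r x y}, ∃ q : Fin k × Fin k, p (e x) q.1 = p (e y) q.2 ∧
          (∀ x y : B', p (e x) q.2 = p (e y) q.2 → x = y) := by
        rintro ⟨y, i, j, -, h3, -, h4⟩
        exact ⟨(i, j), h3, h4⟩
      choose q hq1 hq2 using h1
      have h3 : Function.Injective q := by
        intro y y' h
        apply Subtype.ext
        apply hq2 y
        rw [← hq1 y, h, ← hq1 y']
      have h4 := Nat.card_le_card_of_injective q h3
      rw [Nat.card_prod, Nat.card_fin, Nat.card_coe_set_eq] at h4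
      exact h4)
  obtain ⟨e₂, he₂⟩ := hind χ
  rcases isEmpty_or_nonempty B with hne | ⟨⟨x₀⟩⟩
  · exact ⟨e.comp e₂, ∅, fun x => isEmptyElim x⟩
  refine ⟨e.comp e₂, {q | ∃ i, (∀ x y : B', p (e x) i = p (e y) i) ∧ q = p (e (e₂ x₀)) i}, ?_⟩
  intro x y hxy
  have hxy' : e₂ x ≠ e₂ y := fun h => hxy (e₂.injective h)
  change f (e (e₂ x)) ∩ f (e (e₂ y)) = _
  rw [← hprange, ← hprange]
  ext q
  constructor
  · rintro ⟨⟨i, hi⟩, j, hj⟩
    rcases he' i with h1 | h1
    · exact ⟨i, h1, by rw [← hi]; exact h1 _ _⟩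
    · rcases he' j with h3 | h3
      · exact ⟨j, h3, by rw [← hj]; exact h3 _ _⟩
      · exfalso
        by_cases hij : i = j
        · subst hij
          exact hxy' (h1 _ _ (hi.trans hj.symm))
        · exact hχ _ _ hxy' ⟨i, j, hij, hi.trans hj.symm, h1, h3⟩ (he₂ x y)
  · rintro ⟨i, h1, rfl⟩
    exact ⟨⟨i, h1 _ _⟩, i, h1 _ _⟩

/-- **The finite 2-sunflower property and the finite sunflower property are equivalent.** -/
theorem result (hK : IsFraisse K) (hs : StrongAmalgamation K) :
    FiniteSunflower K 2 ↔ ∀ k : ℕ, 1 ≤ k → FiniteSunflower K k :=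
  ⟨fun h k _ => finite_of_emb (emb_main hK hs (emb_of_finite h) k), fun h => h 2 (by norm_num)⟩

end

end Pool.Agent.Results.MP_ae912c_co.TwoSunflower
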